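import Pool.Agent.H13.Poor

open Filter Set Cardinal

namespace Pool.Agent.Results.MP_78c350_an.NotPoorNotCongl

open Pool.Agent.H13.Poor

lemma wf_rec {ι X : Type} [LinearOrder ι] [WellFoundedLT ι] [Nonempty X] (Q : ι → X → Prop)
    (R : X → ι → X → Prop)
    (h : ∀ α (g : ι → X), (∀ β < α, Q β (g β) ∧ ∀ γ < β, R (g γ) β (g β)) →
      ∃ x, Q α x ∧ ∀ β < α, R (g β) α x) : ∃ g : ι → X, ∀ α, Q α (g α) ∧ ∀ β < α, R (g β) α (g α) := by
  let g : ι → X := (wellFounded_lt (α := ι)).fix fun α prev =>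
    Classical.epsilon fun x => Q α x ∧ ∀ β (h : β < α), R (prev β h) α x
  have hg : ∀ α, g α = Classical.epsilon fun x => Q α x ∧ ∀ β < α, R (g β) α x :=
    fun α => WellFounded.fix_eq _ _ _
  refine ⟨g, fun α => ?_⟩
  induction α using WellFoundedLT.induction with
  | ind α ih => rw [hg α]; exact Classical.epsilon_spec (h α g ih)

lemma split {P : Set ℕ} (h : P.Infinite) :
    ∃ A B, A.Infinite ∧ B.Infinite ∧ A ⊆ P ∧ B ⊆ P ∧ Disjoint A B := by
  let f : ℕ → ℕ := fun n => h.natEmbedding P n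
  have hf : Function.Injective f := Subtype.val_injective.comp (h.natEmbedding P).injective
  refine ⟨range fun n => f (2 * n), range fun n => f (2 * n + 1),
    infinite_range_of_injective fun a b e => by have := hf e; omega,
    infinite_range_of_injective fun a b e => by have := hf e; omega,
    range_subset_iff.2 fun n => (h.natEmbedding P _).2,
    range_subset_iff.2 fun n => (h.natEmbedding P _).2, disjoint_left.2 ?_⟩
  rintro _ ⟨a, rfl⟩ ⟨b, e⟩
  have := hf e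
  omega

lemma small {κ : Type} (hκ : #κ < 𝔠) (U : κ → Ultrafilter ℕ) (D : ℕ → Set ℕ)
    (hD : Pairwise fun m n => Disjoint (D m) (D n)) :
    ∃ M : Set ℕ, M.Infinite ∧ ∀ β, (∀ n, D n ∉ U β) → (⋃ n ∈ M, D n) ∉ U β := by
  obtain ⟨M, hM, hM'⟩ := exists_ad
  by_contra hc
  push Not at hc
  choose β h1 h2 using fun x => hc (M x) (hM x)
  have : Function.Injective β := fun x y e => by
    by_contra hxy
    have h3 := h2 y
    rw [← e] at h3
    obtain ⟨k, a, b, c⟩ := (U (β x)).nonempty_of_mem (inter_mem (h2 x) (inter_mem h3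
      ((eventually_all_finite (hM' x y hxy)).2 fun n _ =>
        Ultrafilter.compl_mem_iff_notMem.2 (h1 x n))))
    obtain ⟨n, hn, a⟩ := mem_iUnion₂.1 a
    obtain ⟨m, hm, b⟩ := mem_iUnion₂.1 b
    by_cases hnm : n = m
    · exact c n ⟨hn, hnm ▸ hm⟩ a
    · exact disjoint_left.1 (hD hnm) a b
  have := mk_le_of_injective this
  simp at this
  exact absurd hκ (not_lt.2 this)

lemma pseudo {κ : Type} [LinearOrder κ] [Countable κ] (Y : κ → Set ℕ) (h1 : ∀ β, (Y β).Infinite)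
    (h2 : ∀ β γ, γ < β → ∀ᶠ n in cofinite, n ∈ Y β → n ∈ Y γ) :
    ∃ P : Set ℕ, P.Infinite ∧ ∀ β, ∀ᶠ n in cofinite, n ∈ P → n ∈ Y β := by
  rcases isEmpty_or_nonempty κ with h | h
  · exact ⟨univ, infinite_univ, fun β => h.elim β⟩
  have ha : Antitone fun β => (cofinite : Filter ℕ) ⊓ 𝓟 (Y β) := fun γ β h => by
    rcases h.lt_or_eq with h | rfl
    · exact le_inf inf_le_left (le_principal_iff.2 (mem_inf_principal.2 (h2 β γ h)))
    · exact le_rfl
  have : (⨅ β, (cofinite : Filter ℕ) ⊓ 𝓟 (Y β)).NeBot :=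
    iInf_neBot_of_directed ha.directed_ge fun β => (h1 β).cofinite_inf_principal_neBot
  have : (cofinite : Filter ℕ).IsCountablyGenerated := by rw [Nat.cofinite_eq_atTop]; infer_instance
  obtain ⟨u, hu⟩ := exists_seq_tendsto (⨅ β, (cofinite : Filter ℕ) ⊓ 𝓟 (Y β))
  rw [tendsto_iInf] at hu
  obtain ⟨β₀⟩ := h
  refine ⟨range u, fun hf => ?_, fun β => ?_⟩
  · obtain ⟨n, hn⟩ := (((hu β₀).mono_right inf_le_left).eventually hf.compl_mem_cofinite).exists
    exact hn ⟨n, rfl⟩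
  · obtain ⟨N, hN⟩ := eventually_atTop.1 (tendsto_principal.1 ((hu β).mono_right inf_le_right))
    filter_upwards [((finite_lt_nat N).image u).compl_mem_cofinite] with _ hn ⟨k, hk⟩
    subst hk
    exact hN k (not_lt.1 fun h => hn ⟨k, h, rfl⟩)

theorem result : ∃ F : Filter ℕ, Free F ∧ ¬ IsPoor F ∧ ¬ Congl F := by
  let ι : Type := (ℵ₁ : Cardinal.{0}).ord.ToType
  have hι : #ι = ℵ₁ := by simp [ι]
  have hc : ∀ α : ι, Countable (Iio α) := fun α => by
    rw [← Cardinal.mk_le_aleph0_iff, ← Order.lt_succ_iff, succ_aleph0]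
    exact mk_Iio_toType_ord_lt α
  obtain ⟨e, he⟩ : ∃ e : ι → ℕ → Set ℕ, #ι < 𝔠 ∨ Function.Surjective e := by
    rcases (hι ▸ aleph_one_le_continuum : #ι ≤ 𝔠).lt_or_eq with h | h
    · exact ⟨fun _ _ => ∅, Or.inl h⟩
    · obtain ⟨e⟩ : Nonempty (ι ≃ (ℕ → Set ℕ)) := Cardinal.eq.1 (by simp [h])
      exact ⟨e, Or.inr e.surjective⟩
  let Z : ι → Set ℕ → Set ℕ := fun α M => ⋃ n ∈ M, e α n
  let pd : ι → Prop := fun α => Pairwise fun m n => Disjoint (e α m) (e α n)
  obtain ⟨g, hg⟩ := wf_rec (ι := ι) (X := Set ℕ × Set ℕ × Set ℕ × Ultrafilter ℕ)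
    (fun α x => x.1.Infinite ∧ Disjoint x.2.1 x.1 ∧ x.2.1 ∈ x.2.2.2 ∧
      (x.2.2.2 : Filter ℕ) ≤ cofinite ∧ x.2.2.1.Infinite ∧
      (pd α → Disjoint (x.2.1 ∪ x.1) (Z α x.2.2.1)))
    (fun y α x => (∀ᶠ n in cofinite, n ∈ x.2.1 ∪ x.1 → n ∈ y.1) ∧
      (pd α → (∀ n, e α n ∉ y.2.2.2) → Z α x.2.2.1 ∉ y.2.2.2)) (by
    intro α g h
    have := hc α
    obtain ⟨P, hP, hP'⟩ := pseudo (κ := Iio α) (fun β => (g β).1) (fun β => (h β β.2).1.1)
      fun β γ hγ => ((h β β.2).2 γ hγ).1.mono fun n hn hn' => hn (Or.inr hn')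
    obtain ⟨M, P', hM, h1, h2, h3, h4⟩ : ∃ M P' : Set ℕ, M.Infinite ∧ P'.Infinite ∧ P' ⊆ P ∧
        (pd α → Disjoint P' (Z α M)) ∧
        (pd α → ∀ β < α, (∀ n, e α n ∉ (g β).2.2.2) → Z α M ∉ (g β).2.2.2) := by
      by_cases hp : pd α
      · obtain ⟨M, hM, hM'⟩ := small (κ := Iio α) (mk_le_aleph0.trans_lt aleph0_lt_continuum)
          (fun β => (g β).2.2.2) (e α) hp
        obtain ⟨M₁, M₂, a1, a2, a3, a4, a5⟩ := split hM
        have key : ∀ M' ⊆ M, ∀ β < α, (∀ n, e α n ∉ (g β).2.2.2) → Z α M' ∉ (g β).2.2.2 :=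
          fun M' hs β hβ h h' => hM' ⟨β, hβ⟩ h (mem_of_superset h' (biUnion_subset_biUnion_left hs))
        by_cases hi : (P \ Z α M₁).Infinite
        · exact ⟨M₁, _, a1, hi, sdiff_subset, fun _ => disjoint_sdiff_left, fun _ => key _ a3⟩
        · refine ⟨M₂, P \ Z α M₂, a2, fun hf => hP (((not_infinite.1 hi).union hf).subset fun k hk => ?_),
            sdiff_subset, fun _ => disjoint_sdiff_left, fun _ => key _ a4⟩
          by_contra hk'
          simp only [mem_union, Set.mem_sdiff, hk, true_and, not_or, not_not] at hk'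
          obtain ⟨n, hn, a⟩ := mem_iUnion₂.1 hk'.1
          obtain ⟨m, hm, b⟩ := mem_iUnion₂.1 hk'.2
          exact disjoint_left.1 (hp fun e : n = m => disjoint_left.1 a5 hn (e ▸ hm)) a b
      · exact ⟨univ, P, infinite_univ, hP, subset_rfl, fun h => absurd h hp, fun h => absurd h hp⟩
    obtain ⟨A, Y, a1, a2, a3, a4, a5⟩ := split h1
    have := a1.cofinite_inf_principal_neBot
    have hU := Ultrafilter.of_le (cofinite ⊓ 𝓟 A : Filter ℕ)
    exact ⟨(Y, A, M, Ultrafilter.of (cofinite ⊓ 𝓟 A)), ⟨a2, a5,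
      le_principal_iff.1 (hU.trans inf_le_right), hU.trans inf_le_left, hM,
      fun hp => (h3 hp).mono_left (union_subset a3 a4)⟩, fun β hβ =>
      ⟨(hP' ⟨β, hβ⟩).mono fun n hn hn' => hn (h2 (union_subset a3 a4 hn')), fun hp => h4 hp β hβ⟩⟩)
  have hu : Uncountable ι := by rw [← aleph0_lt_mk_iff, hι]; exact aleph0_lt_aleph_one
  let U : ι → Ultrafilter ℕ := fun α => (g α).2.2.2
  let F : Filter ℕ := ⨆ α, (U α : Filter ℕ)
  have hF : ∀ S : Set ℕ, Sᶜ ∈ F ↔ ∀ α, S ∉ U α := fun S => by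
    simp only [F, mem_iSup, Ultrafilter.mem_coe, Ultrafilter.compl_mem_iff_notMem]
  have hfin : ∀ α β, β < α → ((g α).2.1 ∩ (g β).2.1)ᶜ ∈ (cofinite : Filter ℕ) := fun α β h =>
    ((hg α).2 β h).1.mono fun n hn hn' => disjoint_left.1 (hg β).1.2.1 hn'.2 (hn (Or.inl hn'.1))
  have hle : F ≤ cofinite := iSup_le fun α => (hg α).1.2.2.2.1
  have hfin' : ∀ α β, α ≠ β → ((g α).2.1 ∩ (g β).2.1)ᶜ ∈ F := fun α β h => by
    rcases h.lt_or_gt with h | h
    · rw [inter_comm]; exact hle (hfin _ _ h)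
    · exact hle (hfin _ _ h)
  have hpos : ∀ α, ((g α).2.1)ᶜ ∉ F := fun α h => (hF _).1 h α (hg α).1.2.2.1
  obtain ⟨α₀⟩ : Nonempty ι := inferInstance
  refine ⟨F, ⟨(U α₀).neBot.mono (le_iSup (fun α => (U α : Filter ℕ)) α₀), hle⟩, fun h => ?_, ?_⟩
  · have := h (range fun α => (g α).2.1) (by rintro _ ⟨x, rfl⟩; exact hpos x) (by
      rintro _ ⟨x, rfl⟩ _ ⟨y, rfl⟩ hne
      exact hfin' x y fun e => hne (e ▸ rfl))
    have hinj : Function.Injective fun α => (g α).2.1 := fun x y e => by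
      by_contra hne
      have := hfin' x y hne
      rw [← show (g x).2.1 = (g y).2.1 from e, inter_self] at this
      exact hpos x this
    rw [← image_univ] at this
    exact not_countable_univ (countable_of_injective_of_countable_image hinj.injOn this)
  · rintro ⟨D, h1, h2, h3⟩
    rcases he with he | he
    · obtain ⟨M, hM, hM'⟩ := small he U D h1
      exact h3 M hM ((hF _).2 fun β => hM' β fun n => (hF _).1 (h2 n) β)
    · obtain ⟨α, rfl⟩ := he D
      refine h3 _ (hg α).1.2.2.2.2.1 ((hF _).2 fun β => ?_)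
      have hd := (hg α).1.2.2.2.2.2 h1
      rcases lt_trichotomy β α with h | rfl | h
      · exact ((hg α).2 β h).2 h1 fun n => (hF _).1 (h2 n) β
      · intro h
        obtain ⟨k, a, b⟩ := (U β).nonempty_of_mem (inter_mem (hg β).1.2.2.1 h)
        exact disjoint_left.1 hd (Or.inl a) b
      · intro h'
        obtain ⟨k, a, b, c⟩ := (U β).nonempty_of_mem (inter_mem (hg β).1.2.2.1 (inter_mem h'
          ((hg β).1.2.2.2.1 ((hg β).2 α h).1)))
        exact disjoint_left.1 hd (Or.inr (c (Or.inl a))) b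

end Pool.Agent.Results.MP_78c350_an.NotPoorNotCongl
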